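import Pool.Agent.N437.QR.Stm

/-!
# Project QR, VAR: the variance bound
-/

set_option autoImplicit false

namespace Pool.Agent.N18.QR

open Finset Filter Topology
open Pool.Agent.N437.QR

section

variable {n d : ℕ} {η p : ℝ}

theorem Av_lin {α Ω : Type} [Fintype α] [DecidableEq α] [Fintype Ω] (A B C D : (α → Ω) → ℝ) (a : ℝ) :
    Av (fun x => A x - a * B x - a * C x + a ^ 2 * D x) =
      Av A - a * Av B - a * Av C + a ^ 2 * Av D := by
  unfold Av
  have e : ∑ x : α → Ω, (A x - a * B x - a * C x + a ^ 2 * D x) =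
      ∑ x, A x - a * ∑ x, B x - a * ∑ x, C x + a ^ 2 * ∑ x, D x := by
    rw [Finset.mul_sum, Finset.mul_sum, Finset.mul_sum, ← Finset.sum_sub_distrib,
      ← Finset.sum_sub_distrib, ← Finset.sum_add_distrib]
  rw [e]
  ring

theorem Ex_lin (A B C D : Finset (Sym2 (Fin n)) → ℝ) (a : ℝ) :
    Ex d η p (fun S => A S - a * B S - a * C S + a ^ 2 * D S) =
      Ex d η p A - a * Ex d η p B - a * Ex d η p C + a ^ 2 * Ex d η p D := by
  unfold Ex
  rw [← Av_lin]
  congr 1
  funext x
  rw [Finset.mul_sum, Finset.mul_sum, Finset.mul_sum, ← Finset.sum_sub_distrib,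
    ← Finset.sum_sub_distrib, ← Finset.sum_add_distrib]
  refine Finset.sum_congr rfl fun S _ => ?_
  ring

theorem Ex_sum {ι : Type} (s : Finset ι) (Φ : ι → Finset (Sym2 (Fin n)) → ℝ) :
    Ex d η p (fun S => ∑ i ∈ s, Φ i S) = ∑ i ∈ s, Ex d η p (Φ i) := by
  unfold Ex Av
  rw [← Finset.mul_sum]
  congr 1
  calc ∑ x : Fin n → (Fin d → Bool), ∑ S : Finset (Sym2 (Fin n)),
        Wt (qx d η p x) S * ∑ i ∈ s, Φ i S
      = ∑ x : Fin n → (Fin d → Bool), ∑ i ∈ s, ∑ S : Finset (Sym2 (Fin n)),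
        Wt (qx d η p x) S * Φ i S := by
        refine Finset.sum_congr rfl fun x _ => ?_
        rw [Finset.sum_comm (s := s)]
        refine Finset.sum_congr rfl fun S _ => ?_
        rw [Finset.mul_sum]
    _ = ∑ i ∈ s, ∑ x : Fin n → (Fin d → Bool), ∑ S : Finset (Sym2 (Fin n)),
        Wt (qx d η p x) S * Φ i S := Finset.sum_comm

theorem Av_one {α Ω : Type} [Fintype α] [DecidableEq α] [Fintype Ω] [Nonempty Ω] :
    Av (fun _ : α → Ω => (1 : ℝ)) = 1 := by
  unfold Av
  rw [Finset.sum_const, Finset.card_univ, nsmul_eq_mul, mul_one]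
  have : (Fintype.card (α → Ω) : ℝ) ≠ 0 := by
    exact_mod_cast Fintype.card_ne_zero
  exact inv_mul_cancel₀ this

theorem Av_mono {α Ω : Type} [Fintype α] [DecidableEq α] [Fintype Ω] {A B : (α → Ω) → ℝ}
    (h : ∀ x, A x ≤ B x) : Av A ≤ Av B := by
  unfold Av
  exact mul_le_mul_of_nonneg_left (Finset.sum_le_sum fun x _ => h x) (by positivity)

theorem Ex_one (h1 : S_WT) : Ex d η p (fun _ : Finset (Sym2 (Fin n)) => (1 : ℝ)) = 1 := by
  unfold Ex
  have e : (fun x : Fin n → (Fin d → Bool) =>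
      ∑ S : Finset (Sym2 (Fin n)), Wt (qx d η p x) S * (1 : ℝ)) = fun _ => 1 := by
    funext x
    simp only [mul_one]
    exact (h1 (qx d η p x)).1
  rw [e, Av_one]

theorem Ex_le_one (h1 : S_WT) (h4 : S_QR1) (hη : |η| ≤ 1) (hp : 0 ≤ p) (hp1 : p * (1 + |η|) ^ d ≤ 1)
    {Φ : Finset (Sym2 (Fin n)) → ℝ} (h : ∀ S, Φ S ≤ 1) : Ex d η p Φ ≤ 1 := by
  rw [← Ex_one (n := n) (d := d) (η := η) (p := p) h1]
  unfold Ex
  refine Av_mono fun x => Finset.sum_le_sum fun S _ => ?_
  exact mul_le_mul_of_nonneg_left (h S) ((h1 (qx d η p x)).2.2 (fun e => h4 d η p hη hp hp1 x e) S)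

end

section

variable {V : Type} [Fintype V] [DecidableEq V] (E : Finset (Sym2 V)) {n : ℕ}

/-- the image of `E` -/
def Tf (f : V → Fin n) : Finset (Sym2 (Fin n)) := E.image (Sym2.map f)

/-- the indicator function -/
def cc (f : V → Fin n) (S : Finset (Sym2 (Fin n))) : ℝ := if Tf E f ⊆ S then 1 else 0

/-- the injective maps -/
def II (V : Type) [Fintype V] [DecidableEq V] (n : ℕ) : Finset (V → Fin n) :=
  Finset.univ.filter fun f => Function.Injective f

theorem card_II : (II V n).card = n.descFactorial (Fintype.card V) := by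
  classical
  have h := Fintype.card_embedding_eq (α := V) (β := Fin n)
  rw [Fintype.card_fin] at h
  rw [← h, ← Fintype.card_congr (Equiv.subtypeInjectiveEquivEmbedding V (Fin n)),
    Fintype.card_subtype]
  rfl

theorem emb_eq (S : Finset (Sym2 (Fin n))) : (emb E S : ℝ) = ∑ f ∈ II V n, cc E f S := by
  classical
  unfold emb cc
  have e : {f : V → Fin n | Function.Injective f ∧ ∀ e ∈ E, e.map f ∈ S} =
      ((II V n).filter fun f => Tf E f ⊆ S : Finset (V → Fin n)) := by
    ext f
    simp [II, Tf, Finset.image_subset_iff]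
  rw [e, Set.ncard_coe_finset, Finset.sum_boole]

variable {E}

/-- the product of the weights of an embedded graph -/
noncomputable def hh (E : Finset (Sym2 V)) (d : ℕ) (η p : ℝ) (y : V → (Fin d → Bool)) : ℝ :=
  p ^ E.card * ∏ e ∈ E, Wk d η (e.map y)

theorem prod_T {d : ℕ} {η p : ℝ} {f : V → Fin n} (hf : Function.Injective f)
    (x : Fin n → (Fin d → Bool)) : ∏ e ∈ Tf E f, qx d η p x e = hh E d η p (x ∘ f) := by
  unfold Tf hh
  rw [Finset.prod_image fun a _ b _ h => Sym2.map.injective hf h]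
  unfold qx
  rw [Finset.prod_mul_distrib, Finset.prod_const]
  congr 1
  refine Finset.prod_congr rfl fun e _ => ?_
  rw [Sym2.map_map]

theorem Av_hh (h3 : S_TEN) (d : ℕ) (η p : ℝ) : Av (hh E d η p) = p ^ E.card * Zf E η ^ d := by
  rw [← h3 E d η]
  unfold Av hh
  rw [← Finset.mul_sum]
  ring

theorem first (h1 : S_WT) (h2 : S_AVG) (h3 : S_TEN) (d : ℕ) (η p : ℝ) {f : V → Fin n}
    (hf : Function.Injective f) : Ex d η p (cc E f) = p ^ E.card * Zf E η ^ d := by
  have hA := @h2 (Fin n) (Fin d → Bool) inferInstance inferInstance inferInstance inferInstance V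
    inferInstance inferInstance
  rw [← Av_hh h3, ← hA.1 f (hh E d η p) hf]
  unfold Ex
  congr 1
  funext x
  rw [← prod_T hf x, ← (h1 (qx d η p x)).2.1 (Tf E f)]
  refine Finset.sum_congr rfl fun S _ => ?_
  unfold cc
  split_ifs <;> simp

theorem disj {f g : V → Fin n} (h : ∀ u v, f u ≠ g v) : Disjoint (Tf E f) (Tf E g) := by
  rw [Finset.disjoint_left]
  intro e h1 h2
  unfold Tf at h1 h2
  obtain ⟨a, -, ha⟩ := Finset.mem_image.1 h1
  obtain ⟨b, -, hb⟩ := Finset.mem_image.1 h2
  rw [← hb] at ha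
  induction a using Sym2.ind with
  | _ u u' =>
    induction b using Sym2.ind with
    | _ v v' =>
      rw [Sym2.map_mk, Sym2.map_mk, Sym2.eq_iff] at ha
      rcases ha with ⟨ha, -⟩ | ⟨ha, -⟩
      · exact h _ _ ha
      · exact h _ _ ha

theorem second (h1 : S_WT) (h2 : S_AVG) (h3 : S_TEN) (d : ℕ) (η p : ℝ) {f g : V → Fin n}
    (hf : Function.Injective f) (hg : Function.Injective g) (h : ∀ u v, f u ≠ g v) :
    Ex d η p (fun S => cc E f S * cc E g S) = (p ^ E.card * Zf E η ^ d) ^ 2 := by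
  have hA := @h2 (Fin n) (Fin d → Bool) inferInstance inferInstance inferInstance inferInstance V
    inferInstance inferInstance
  rw [← Av_hh h3, sq, ← hA.2 f g (hh E d η p) (hh E d η p) hf hg h]
  unfold Ex
  congr 1
  funext x
  rw [← prod_T hf x, ← prod_T hg x, ← Finset.prod_union (disj h),
    ← (h1 (qx d η p x)).2.1 (Tf E f ∪ Tf E g)]
  refine Finset.sum_congr rfl fun S _ => ?_
  unfold cc
  by_cases c1 : Tf E f ⊆ S <;> by_cases c2 : Tf E g ⊆ S <;>
    simp [Finset.union_subset_iff, c1, c2]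

theorem card_fix (v : V) (t : Fin n) :
    ((II V n).filter fun g => g v = t).card ≤ n ^ (Fintype.card V - 1) := by
  classical
  have h1 : Fintype.card {w : V // w ≠ v} = Fintype.card V - 1 := by
    rw [Fintype.card_subtype_compl, Fintype.card_subtype_eq]
  have h2 : Fintype.card ({w : V // w ≠ v} → Fin n) = n ^ (Fintype.card V - 1) := by
    rw [Fintype.card_fun, Fintype.card_fin, h1]
  rw [← h2, ← Finset.card_univ]
  refine Finset.card_le_card_of_injOn (fun g => fun w : {w : V // w ≠ v} => g w) ?_ ?_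
  · intro g _
    exact Finset.mem_coe.2 (Finset.mem_univ _)
  · intro g hg g' hg' he
    have hg1 := (Finset.mem_filter.1 (Finset.mem_coe.1 hg)).2
    have hg2 := (Finset.mem_filter.1 (Finset.mem_coe.1 hg')).2
    funext w
    by_cases hw : w = v
    · rw [hw, hg1, hg2]
    · exact congrFun he ⟨w, hw⟩

end

theorem t_VAR (h1 : S_WT) (h2 : S_AVG) (h3 : S_TEN) (h4 : S_QR1) : S_VAR := by
  intro V _ _ E n d η p hη hp hp1
  classical
  obtain ⟨a, ha⟩ : ∃ a, a = p ^ E.card * Zf E η ^ d := ⟨_, rfl⟩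
  rw [← ha]
  have e1 : (fun S : Finset (Sym2 (Fin n)) =>
      ((emb E S : ℝ) - n.descFactorial (Fintype.card V) * a) ^ 2) =
      fun S => ∑ f ∈ II V n, ∑ g ∈ II V n,
        (cc E f S * cc E g S - a * cc E f S - a * cc E g S + a ^ 2 * 1) := by
    funext S
    have e2 : (emb E S : ℝ) - n.descFactorial (Fintype.card V) * a =
        ∑ f ∈ II V n, (cc E f S - a) := by
      rw [Finset.sum_sub_distrib, ← emb_eq, Finset.sum_const, card_II, nsmul_eq_mul]
    rw [e2, sq, Finset.sum_mul_sum]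
    refine Finset.sum_congr rfl fun f _ => Finset.sum_congr rfl fun g _ => ?_
    ring
  rw [e1, Ex_sum]
  have key : ∀ f ∈ II V n, Ex d η p (fun S => ∑ g ∈ II V n,
      (cc E f S * cc E g S - a * cc E f S - a * cc E g S + a ^ 2 * 1)) ≤
      (Fintype.card V : ℝ) ^ 2 * (n : ℝ) ^ (Fintype.card V - 1) := by
    intro f hf
    have hf' : Function.Injective f := (Finset.mem_filter.1 hf).2
    rw [Ex_sum]
    have h5 : ∀ g ∈ II V n, Ex d η p (fun S =>
        cc E f S * cc E g S - a * cc E f S - a * cc E g S + a ^ 2 * 1) ≤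
        ∑ q : V × V, if g q.2 = f q.1 then (1 : ℝ) else 0 := by
      intro g hg
      have hg' : Function.Injective g := (Finset.mem_filter.1 hg).2
      have h6 := Ex_lin (d := d) (η := η) (p := p) (fun S => cc E f S * cc E g S) (cc E f) (cc E g)
        (fun _ => 1) a
      rw [first h1 h2 h3 d η p hf', first h1 h2 h3 d η p hg', Ex_one h1, ← ha] at h6
      refine h6.le.trans ?_
      by_cases hc : ∃ q : V × V, g q.2 = f q.1
      · obtain ⟨q, hq⟩ := hc
        have h7 : Ex d η p (fun S => cc E f S * cc E g S) ≤ 1 := by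
          refine Ex_le_one h1 h4 hη hp hp1 fun S => ?_
          unfold cc
          split_ifs <;> norm_num
        have h8 : (1 : ℝ) ≤ ∑ q : V × V, if g q.2 = f q.1 then (1 : ℝ) else 0 := by
          have := Finset.single_le_sum (f := fun q : V × V => if g q.2 = f q.1 then (1 : ℝ) else 0)
            (fun q _ => by positivity) (Finset.mem_univ q)
          simpa [hq] using this
        nlinarith [sq_nonneg a]
      · have h9 : ∀ u v, f u ≠ g v := fun u v e => hc ⟨(u, v), e.symm⟩
        have h10 := second (E := E) h1 h2 h3 d η p hf' hg' h9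
        rw [h10, ← ha]
        have h11 : (0 : ℝ) ≤ ∑ q : V × V, if g q.2 = f q.1 then (1 : ℝ) else 0 :=
          Finset.sum_nonneg fun q _ => by positivity
        nlinarith
    refine (Finset.sum_le_sum h5).trans ?_
    rw [Finset.sum_comm]
    calc ∑ q : V × V, ∑ g ∈ II V n, (if g q.2 = f q.1 then (1 : ℝ) else 0)
        ≤ ∑ _q : V × V, (n : ℝ) ^ (Fintype.card V - 1) := by
          refine Finset.sum_le_sum fun q _ => ?_
          rw [Finset.sum_boole]
          exact_mod_cast card_fix q.2 (f q.1)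
      _ = (Fintype.card V : ℝ) ^ 2 * (n : ℝ) ^ (Fintype.card V - 1) := by
          rw [Finset.sum_const, Finset.card_univ, Fintype.card_prod, nsmul_eq_mul]
          push_cast
          ring
  refine (Finset.sum_le_sum key).trans ?_
  rw [Finset.sum_const, card_II, nsmul_eq_mul]
  apply le_of_eq
  ring

end Pool.Agent.N18.QR
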